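import Pool.Agent.Helper25.HFHMain

/-!
MP_5ec4bc_an, Q1: a hereditarily frequently hypercyclic operator that is not hereditarily
`U`-frequently hypercyclic.
-/

set_option autoImplicit false

open Pool.Agent.Helper25.HFH

namespace Pool.Agent.Results.MP_5ec4bc_an.HereditaryDisproof

/-- Over `ℝ` and over `ℂ` there is a bounded operator on a separable infinite-dimensional Banach
space that is hereditarily frequently hypercyclic but not hereditarily `U`-frequently hypercyclic;
a single nonempty open set and a single set of positive upper density witness the failure. -/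
theorem result (𝕜 : Type) [RCLike 𝕜] :
    ∃ (X : Type) (_ : NormedAddCommGroup X) (_ : NormedSpace 𝕜 X),
      CompleteSpace X ∧ TopologicalSpace.SeparableSpace X ∧ ¬ FiniteDimensional 𝕜 X ∧
      ∃ T : X →L[𝕜] X,
        HereditarilyHypercyclic {A | 0 < lowerDensity A} T ∧
        ¬ HereditarilyHypercyclic {A | 0 < upperDensity A} T ∧
        ∃ (V : Set X) (A : Set ℕ), IsOpen V ∧ V.Nonempty ∧ 0 < upperDensity A ∧
          ∀ x : X, upperDensity ({n : ℕ | T^[n] x ∈ V} ∩ A) = 0 :=
  final 𝕜

end Pool.Agent.Results.MP_5ec4bc_an.HereditaryDisproof
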